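import Pool.Agent.Helper70.DK.Defs

/-! Module SELA of the digit Kakeya blueprint: selection of the scales. -/

namespace Pool.Agent.Helper70.DK

open Finset

/-! ### cells -/

theorem sela_cl_add {k : ℕ} (B s w : ℕ) (z : Fin k → ℤ) : cl B (s + w) z = cl B w (cl B s z) := by
  funext i
  simp only [cl]
  rw [pow_add, Int.ediv_ediv_of_nonneg (by positivity)]

theorem sela_cl_zero {k : ℕ} (B : ℕ) (z : Fin k → ℤ) : cl B 0 z = z := by
  funext i
  simp [cl]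

theorem sela_cl_fl {k : ℕ} (B n : ℕ) (hB : 2 ≤ B) (x : Fin k → ℝ) :
    cl B n (fl ((B : ℝ) ^ n • x)) = fl x := by
  funext i
  simp only [cl, fl, Pi.smul_apply, smul_eq_mul]
  have h0 : (0 : ℝ) < (B : ℝ) ^ n := by positivity
  have h1 : ((B : ℤ) ^ n) = (((B ^ n : ℕ) : ℕ) : ℤ) := by push_cast; ring
  rw [h1, ← Int.floor_div_natCast]
  congr 1
  push_cast
  field_simp

theorem sela_cl_add_sub {k : ℕ} (B D n : ℕ) (hB : 2 ≤ B) (z : Fin k → ℤ) (i : Fin k) (x : ℤ)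
    (h : |x| ≤ (D : ℤ) * (B : ℤ) ^ n) :
    z i / (B : ℤ) ^ n - D ≤ (z i + x) / (B : ℤ) ^ n ∧ (z i + x) / (B : ℤ) ^ n ≤ z i / (B : ℤ) ^ n + D := by
  have hb : (0 : ℤ) < (B : ℤ) ^ n := by positivity
  have h1 := abs_le.mp h
  constructor
  · have h2 : (z i + (-(D : ℤ)) * (B : ℤ) ^ n) / (B : ℤ) ^ n = z i / (B : ℤ) ^ n + (-(D : ℤ)) :=
      Int.add_mul_ediv_right _ _ hb.ne'
    have h3 : (z i + (-(D : ℤ)) * (B : ℤ) ^ n) / (B : ℤ) ^ n ≤ (z i + x) / (B : ℤ) ^ n :=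
      Int.ediv_le_ediv hb (by linarith [h1.1])
    linarith
  · have h2 : (z i + (D : ℤ) * (B : ℤ) ^ n) / (B : ℤ) ^ n = z i / (B : ℤ) ^ n + (D : ℤ) :=
      Int.add_mul_ediv_right _ _ hb.ne'
    have h3 : (z i + x) / (B : ℤ) ^ n ≤ (z i + (D : ℤ) * (B : ℤ) ^ n) / (B : ℤ) ^ n :=
      Int.ediv_le_ediv hb (by linarith [h1.2])
    linarith

/-! ### entropies -/

section

variable (hE1 : ST_E1) (hE2 : ST_E2) (hE5 : ST_E5)

include hE1

theorem sela_dp {Ω α β : Type} (S : Finset Ω) (f : Ω → α) (g : Ω → β)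
    (h : ∀ x ∈ S, ∀ y ∈ S, g x = g y → f x = f y) : ent S f ≤ ent S g := hE1.1 Ω α β S f g h

theorem sela_eq {Ω α β : Type} (S : Finset Ω) (f : Ω → α) (g : Ω → β)
    (h : ∀ x ∈ S, ∀ y ∈ S, g x = g y ↔ f x = f y) : ent S f = ent S g :=
  le_antisymm (sela_dp hE1 S f g fun x hx y hy => (h x hx y hy).1)
    (sela_dp hE1 S g f fun x hx y hy => (h x hx y hy).2)

/-- entropy of the cells decreases with the level -/
theorem sela_ent_cl {Ω : Type} {k : ℕ} (B s w : ℕ) (S : Finset Ω) (T : Ω → Fin k → ℤ) :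
    ent S (fun x => cl B (s + w) (T x)) ≤ ent S (fun x => cl B s (T x)) := by
  refine sela_dp hE1 S _ _ fun x _ y _ hxy => ?_
  simp only [sela_cl_add] at *
  rw [hxy]

/-- conditioning on a finer partition -/
theorem sela_cent_mono {Ω α β γ : Type} (S : Finset Ω) (f : Ω → α) (g : Ω → β) (h : Ω → γ)
    (hgh : ∀ x ∈ S, ∀ y ∈ S, g x = g y → h x = h y) : cent S f g ≤ cent S f h := by
  have h1 := hE1.2.1 Ω α β γ S f g h
  have h2 : ent S (fun ω => (f ω, g ω, h ω)) = ent S (fun ω => (f ω, g ω)) := by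
    refine sela_eq hE1 S _ _ fun x hx y hy => ?_
    simp only [Prod.mk.injEq]
    constructor
    · rintro ⟨h3, h4⟩
      exact ⟨h3, h4, hgh x hx y hy h4⟩
    · rintro ⟨h3, h4, _⟩
      exact ⟨h3, h4⟩
  have h3 : ent S (fun ω => (g ω, h ω)) = ent S g := by
    refine sela_eq hE1 S _ _ fun x hx y hy => ?_
    simp only [Prod.mk.injEq]
    constructor
    · intro h4
      exact ⟨h4, hgh x hx y hy h4⟩
    · rintro ⟨h4, _⟩
      exact h4
  unfold cent
  linarith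

theorem sela_cent_cl {Ω α : Type} {k : ℕ} (B s w : ℕ) (S : Finset Ω) (f : Ω → α) (T : Ω → Fin k → ℤ) :
    cent S f (fun x => cl B s (T x)) ≤ cent S f (fun x => cl B (s + w) (T x)) := by
  refine sela_cent_mono hE1 S _ _ _ fun x _ y _ hxy => ?_
  simp only [sela_cl_add] at *
  rw [hxy]

include hE2

/-- the increment of the entropy between two levels -/
theorem sela_ent_cl_sub {Ω : Type} {k : ℕ} (B s w : ℕ) (hB : 2 ≤ B) (S : Finset Ω) (T : Ω → Fin k → ℤ) :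
    ent S (fun x => cl B s (T x)) - ent S (fun x => cl B (s + w) (T x)) ≤ k * w * Real.log B := by
  classical
  have h1 := hE2.1 Ω (Fin k → ℤ) (Fin k → ℤ) S (fun x => cl B s (T x)) (fun x => cl B (s + w) (T x))
    ((B ^ w) ^ k) (fun c => ⟨Fintype.piFinset fun i => Finset.Ico (c i * (B : ℤ) ^ w) (c i * (B : ℤ) ^ w + (B : ℤ) ^ w), ?_, ?_⟩)
  · have h2 : ent S (fun x => cl B s (T x)) ≤
        ent S (fun ω => (cl B s (T ω), cl B (s + w) (T ω))) := by
      refine sela_dp hE1 S _ _ fun x _ y _ hxy => ?_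
      simp only [Prod.mk.injEq] at hxy
      exact hxy.1
    have h3 : Real.log (((B ^ w) ^ k : ℕ) : ℝ) = k * w * Real.log B := by
      push_cast
      rw [Real.log_pow, Real.log_pow]
      ring
    unfold cent at h1
    rw [h3] at h1
    linarith
  · rw [Fintype.card_piFinset]
    have h4 : ∀ i : Fin k, (Finset.Ico (c i * (B : ℤ) ^ w) (c i * (B : ℤ) ^ w + (B : ℤ) ^ w)).card = B ^ w := by
      intro i
      rw [Int.card_Ico]
      have : c i * (B : ℤ) ^ w + (B : ℤ) ^ w - c i * (B : ℤ) ^ w = ((B ^ w : ℕ) : ℤ) := by push_cast; ring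
      rw [this, Int.toNat_natCast]
    simp [h4]
  · intro x _ hx
    simp only [Fintype.mem_piFinset, Finset.mem_Ico]
    intro i
    have h5 : c i = cl B s (T x) i / (B : ℤ) ^ w := by
      rw [← hx, sela_cl_add]
      rfl
    have hb : (0 : ℤ) < (B : ℤ) ^ w := by positivity
    rw [h5]
    constructor
    · exact Int.ediv_mul_le _ hb.ne'
    · have := Int.lt_ediv_add_one_mul_self (cl B s (T x) i) hb
      linarith

omit hE2
include hE5

/-- the conditional entropy of a sum given the first summand -/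
theorem sela_cent_sum {Ω Ω' : Type} {k : ℕ} (S : Finset Ω) (S2 : Finset Ω') (T : Ω → Fin k → ℤ)
    (V : Ω' → Fin k → ℤ) (hS : S.Nonempty) (hS2 : S2.Nonempty) :
    ent S2 V ≤ cent (S ×ˢ S2) (fun x => T x.1 + V x.2) (fun x => T x.1) := by
  have h1 := hE5.2.2.2.1 Ω Ω' (Fin k → ℤ) S S2 (fun u v => T u + V v) hS hS2
  have h2 : cent (S ×ˢ S2) (fun x => T x.1 + V x.2) (fun x => x.1) ≤
      cent (S ×ˢ S2) (fun x => T x.1 + V x.2) (fun x => T x.1) := by
    refine sela_cent_mono hE1 _ _ _ _ fun x _ y _ hxy => ?_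
    have h : x.1 = y.1 := hxy
    show T x.1 = T y.1
    rw [h]
  have h3 : ∀ u ∈ S, ent S2 (fun v => T u + V v) = ent S2 V := by
    intro u _
    refine sela_eq hE1 S2 _ _ fun x _ y _ => ?_
    simp
  have h4 : (∑ x ∈ S, ent S2 (fun v => T x + V v)) / (S.card : ℝ) = ent S2 V := by
    rw [Finset.sum_congr rfl h3, Finset.sum_const, nsmul_eq_mul]
    have : (S.card : ℝ) ≠ 0 := by
      have := hS.card_pos
      positivity
    field_simp
  have h5 : cent (S ×ˢ S2) (fun x => T x.1 + V x.2) (fun x => x.1) = ent S2 V := by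
    rw [← h4]
    exact h1
  linarith

end

/-! ### the pigeonhole -/

/-- a substep carrying its share of the increment -/
theorem sela_sub (hE1 : ST_E1) {Ω α : Type} {k : ℕ} (B s w r : ℕ) (S : Finset Ω) (T : Ω → Fin k → ℤ)
    {Ω' : Type} (S' : Finset Ω') (f' : Ω' → α) (p : Ω' → Ω) (x η' : ℝ) (hr : 1 ≤ r)
    (h : r * x ≤ ent S (fun y => cl B s (T y)) - ent S (fun y => cl B (s + w * r) (T y)))
    (hI : cent S' f' (fun y => cl B (s + w * r) (T (p y))) - cent S' f' (fun y => cl B s (T (p y))) ≤ η') :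
    ∃ s', s ≤ s' ∧ s' + w ≤ s + w * r ∧
      x ≤ ent S (fun y => cl B s' (T y)) - ent S (fun y => cl B (s' + w) (T y)) ∧
      cent S' f' (fun y => cl B (s' + w) (T (p y))) - cent S' f' (fun y => cl B s' (T (p y))) ≤ η' := by
  have h1 : ∑ l ∈ range r, (ent S (fun y => cl B (s + w * l) (T y)) -
      ent S (fun y => cl B (s + w * (l + 1)) (T y))) =
      ent S (fun y => cl B s (T y)) - ent S (fun y => cl B (s + w * r) (T y)) := by
    rw [Finset.sum_range_sub' (fun l => ent S (fun y => cl B (s + w * l) (T y)))]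
    simp
  obtain ⟨l, hl, hxl⟩ : ∃ l ∈ range r, x ≤ ent S (fun y => cl B (s + w * l) (T y)) -
      ent S (fun y => cl B (s + w * (l + 1)) (T y)) := by
    refine Finset.exists_le_of_sum_le (s := range r) (f := fun _ => x) ?_ ?_
    · exact ⟨0, Finset.mem_range.mpr (by omega)⟩
    · rw [h1]
      simpa using h
  rw [Finset.mem_range] at hl
  have h2 : w * (l + 1) ≤ w * r := Nat.mul_le_mul_left w hl
  have h3 : s + w * l + w = s + w * (l + 1) := by ring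
  refine ⟨s + w * l, by omega, by omega, ?_, ?_⟩
  · rw [h3]
    exact hxl
  · rw [h3]
    obtain ⟨d, hd⟩ := Nat.exists_eq_add_of_le h2
    have h4 := sela_cent_cl hE1 B (s + w * (l + 1)) d S' f' (fun y => T (p y))
    have h5 := sela_cent_cl hE1 B s (w * l) S' f' (fun y => T (p y))
    have h6 : s + w * (l + 1) + d = s + w * r := by omega
    rw [h6] at h4
    linarith

/-- selection of the scales for two abstract integer vectors -/
theorem sela_scales (hE1 : ST_E1) (hE2 : ST_E2) (hE5 : ST_E5) (hPIG : ST_PIG) (M k B : ℕ) (ε1 : ℝ)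
    (hM : 2 ≤ M) (hB : 2 ≤ B) (hk : 1 ≤ k) (hε1 : 0 < ε1) :
    ∃ θ ε κ : ℝ, 0 < θ ∧ 0 < ε ∧ ε ≤ ε1 / 8 ∧ M * ε ≤ ε1 / 4 ∧ 0 < κ ∧
    ∀ C : ℝ, 0 ≤ C → ∃ lam0 : ℕ, 1 ≤ lam0 ∧ ∀ lam : ℕ, lam0 ≤ lam → ∀ η' : ℝ, 0 < η' →
    ∃ η : ℝ, 0 < η ∧ ∃ N0 : ℕ, ∀ N : ℕ, N0 ≤ N → ∀ (Ω Ω' : Type) (S : Finset Ω) (S2 : Finset Ω')
      (T : Ω → Fin k → ℤ) (V : Ω' → Fin k → ℤ) (e : ℝ) (bad bad' : Finset ℕ) (w r n2 : ℕ),
    S.Nonempty → S2.Nonempty → lam = w * r → 1 ≤ r → n2 = (M - 1) * N * lam → e ≤ k →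
    ε1 / 2 * (N * lam * Real.log B) - C ≤ ent S T - ent S (fun x => cl B n2 (T x)) →
    cent (S ×ˢ S2) (fun x => T x.1 + V x.2) (fun x => cl B n2 (T x.1)) - ent S2 V ≤
      M * (N * lam * Real.log B) * η + C →
    ent S2 V ≤ ((M - 1) * e + ε) * (N * lam * Real.log B) + C →
    (∀ j < (M - 1) * N, j ∉ bad → (e - ε) * lam * Real.log B - C ≤
      ent S2 (fun x => cl B (n2 - (j + 1) * lam) (V x)) - ent S2 (fun x => cl B (n2 - j * lam) (V x))) →
    (bad.card : ℝ) ≤ κ * (M * N) → (bad'.card : ℝ) ≤ κ * (M * N) →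
    ∃ j s, 3 ≤ j ∧ j < (M - 1) * N ∧ n2 - (j + 1) * lam ≤ s ∧ s + w ≤ n2 - j * lam ∧
      θ * w * Real.log B ≤ ent S (fun x => cl B s (T x)) - ent S (fun x => cl B (s + w) (T x)) ∧
      cent (S ×ˢ S2) (fun x => T x.1 + V x.2) (fun x => cl B (s + w) (T x.1)) -
        cent (S ×ˢ S2) (fun x => T x.1 + V x.2) (fun x => cl B s (T x.1)) ≤ η' ∧
      j - 3 ∉ bad' ∧
      ent S2 (fun x => cl B (n2 - (j - 2) * lam) (V x)) - ent S2 (fun x => cl B (n2 - (j - 3) * lam) (V x)) ≤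
        (e + ε1 / 8) * lam * Real.log B := by
  have hL : 0 < Real.log B := Real.log_pos (by exact_mod_cast hB)
  obtain ⟨θ, ε, κ, hθ, hε, hε8, hMε, hκ, hP⟩ := hPIG M k ε1 hM hk hε1
  refine ⟨θ, ε, κ, hθ, hε, hε8, hMε, hκ, fun C hC => ?_⟩
  obtain ⟨lam0, hl0, hP⟩ := hP C (Real.log B) hC hL
  refine ⟨lam0, hl0, fun lam hlam η' hη' => ?_⟩
  obtain ⟨η, hη, N0, hP⟩ := hP lam hlam η' hη'
  refine ⟨η, hη, N0, fun N hN Ω Ω' S S2 T V e bad bad' w r n2 hS hS2 hwr hr hn2 hek hE hI hF hbad hb hb' => ?_⟩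
  have hlev : ∀ j < (M - 1) * N, n2 - j * lam = n2 - (j + 1) * lam + lam := by
    intro j hj
    have h1 : (j + 1) * lam ≤ (M - 1) * N * lam := Nat.mul_le_mul_right lam hj
    rw [← hn2] at h1
    have h2 : (j + 1) * lam = j * lam + lam := by ring
    omega
  have hend : n2 - (M - 1) * N * lam = 0 := by rw [hn2]; simp
  have hsubj : ∀ {Ω'' : Type} (S'' : Finset Ω'') (Z : Ω'' → Fin k → ℤ), ∀ j < (M - 1) * N,
      ent S'' (fun x => cl B (n2 - j * lam) (Z x)) ≤ ent S'' (fun x => cl B (n2 - (j + 1) * lam) (Z x)) := by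
    intro Ω'' S'' Z j hj
    rw [hlev j hj]
    exact sela_ent_cl hE1 B _ _ S'' Z
  have htel : ∀ {Ω'' : Type} (S'' : Finset Ω'') (Z : Ω'' → Fin k → ℤ),
      ∑ j ∈ range ((M - 1) * N), (ent S'' (fun x => cl B (n2 - (j + 1) * lam) (Z x)) -
        ent S'' (fun x => cl B (n2 - j * lam) (Z x))) = ent S'' Z - ent S'' (fun x => cl B n2 (Z x)) := by
    intro Ω'' S'' Z
    rw [Finset.sum_range_sub (fun j => ent S'' (fun x => cl B (n2 - j * lam) (Z x)))]
    rw [hend]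
    simp only [sela_cl_zero, zero_mul, Nat.sub_zero]
  have htelI : ∑ j ∈ range ((M - 1) * N),
      (cent (S ×ˢ S2) (fun x => T x.1 + V x.2) (fun x => cl B (n2 - j * lam) (T x.1)) -
        cent (S ×ˢ S2) (fun x => T x.1 + V x.2) (fun x => cl B (n2 - (j + 1) * lam) (T x.1))) =
      cent (S ×ˢ S2) (fun x => T x.1 + V x.2) (fun x => cl B n2 (T x.1)) -
        cent (S ×ˢ S2) (fun x => T x.1 + V x.2) (fun x => T x.1) := by
    rw [Finset.sum_range_sub' (fun j => cent (S ×ˢ S2) (fun x => T x.1 + V x.2)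
      (fun x => cl B (n2 - j * lam) (T x.1)))]
    rw [hend]
    simp only [sela_cl_zero, zero_mul, Nat.sub_zero]
  have hV := sela_cent_sum hE1 hE5 S S2 T V hS hS2
  have a1 : ∀ j < (M - 1) * N, 0 ≤ ent S (fun x => cl B (n2 - (j + 1) * lam) (T x)) -
      ent S (fun x => cl B (n2 - j * lam) (T x)) ∧ ent S (fun x => cl B (n2 - (j + 1) * lam) (T x)) -
      ent S (fun x => cl B (n2 - j * lam) (T x)) ≤ k * lam * Real.log B := by
    intro j hj
    constructor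
    · have := hsubj S T j hj
      linarith
    · have := sela_ent_cl_sub hE1 hE2 B (n2 - (j + 1) * lam) lam hB S T
      rw [← hlev j hj] at this
      exact this
  have a3 : ∀ j < (M - 1) * N,
      0 ≤ cent (S ×ˢ S2) (fun x => T x.1 + V x.2) (fun x => cl B (n2 - j * lam) (T x.1)) -
        cent (S ×ˢ S2) (fun x => T x.1 + V x.2) (fun x => cl B (n2 - (j + 1) * lam) (T x.1)) := by
    intro j hj
    have := sela_cent_cl hE1 B (n2 - (j + 1) * lam) lam (S ×ˢ S2) (fun x => T x.1 + V x.2) (fun x => T x.1)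
    rw [← hlev j hj] at this
    linarith
  have a5 : ∀ j < (M - 1) * N, 0 ≤ ent S2 (fun x => cl B (n2 - (j + 1) * lam) (V x)) -
      ent S2 (fun x => cl B (n2 - j * lam) (V x)) := by
    intro j hj
    have := hsubj S2 V j hj
    linarith
  have a6 := hE1.2.2.1 Ω' (Fin k → ℤ) S2 (fun x => cl B n2 (V x))
  obtain ⟨j, hj3, hjM, hEj, hIj, hbj, hFj⟩ := hP N hN e
    (fun j => ent S (fun x => cl B (n2 - (j + 1) * lam) (T x)) - ent S (fun x => cl B (n2 - j * lam) (T x)))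
    (fun j => cent (S ×ˢ S2) (fun x => T x.1 + V x.2) (fun x => cl B (n2 - j * lam) (T x.1)) -
        cent (S ×ˢ S2) (fun x => T x.1 + V x.2) (fun x => cl B (n2 - (j + 1) * lam) (T x.1)))
    (fun j => ent S2 (fun x => cl B (n2 - (j + 1) * lam) (V x)) - ent S2 (fun x => cl B (n2 - j * lam) (V x)))
    bad bad' hek a1 (by rw [htel]; exact hE) a3 (by rw [htelI]; linarith) a5 (by rw [htel]; linarith) hbad hb hb'
  have hj1 : j - 3 + 1 = j - 2 := by omega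
  simp only [hj1] at hFj
  obtain ⟨s, hs1, hs2, hs3, hs4⟩ := sela_sub hE1 B (n2 - (j + 1) * lam) w r S T
    (S ×ˢ S2) (fun x => T x.1 + V x.2) (fun x => x.1) (θ * w * Real.log B) η' hr (by
      rw [← hwr, ← hlev j hjM]
      have : (r : ℝ) * (θ * w * Real.log B) = θ * lam * Real.log B := by
        rw [hwr]
        push_cast
        ring
      rw [this]
      exact hEj) (by
      rw [← hwr, ← hlev j hjM]
      exact hIj)
  rw [← hwr, ← hlev j hjM] at hs2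
  exact ⟨j, s, hj3, hjM, hs1, hs2, hs3, hs4, hbj, hFj⟩

/-! ### the two halves of a window -/

theorem sela_hh_prod (hE5 : ST_E5) {m B : ℕ} {t : ℝ} {ι : Type} [Fintype ι] (σ : Sys m ι) {k : ℕ}
    (π : Matrix (Fin k) (Fin m) ℝ) (i n n2 : ℕ) :
    ent ((univ : Finset (Fin n → ι)) ×ˢ (univ : Finset (Fin n2 → ι)))
      (fun x => fl (π.mulVec (σ.P B t i (n + n2) (Fin.append x.1 x.2)))) = σ.hh B t π i (n + n2) := by
  have h0 : Set.BijOn (fun x : (Fin n → ι) × (Fin n2 → ι) => Fin.append x.1 x.2)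
      (((univ : Finset (Fin n → ι)) ×ˢ (univ : Finset (Fin n2 → ι)) : Finset _) : Set _)
      ((univ : Finset (Fin (n + n2) → ι)) : Set _) := by
    refine ⟨fun x _ => Finset.mem_coe.mpr (Finset.mem_univ _), ?_, ?_⟩
    · intro x _ y _ hxy
      exact (Fin.appendEquiv n n2).injective hxy
    · intro y _
      obtain ⟨x, hx⟩ := (Fin.appendEquiv n n2).surjective y
      refine ⟨x, Finset.mem_coe.mpr (Finset.mem_product.mpr ⟨Finset.mem_univ _, Finset.mem_univ _⟩), ?_⟩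
      rw [← hx]
      rfl
  exact hE5.2.2.2.2 ((Fin n → ι) × (Fin n2 → ι)) (Fin (n + n2) → ι) (Fin k → ℤ) _ _ _
    (fun u => fl (π.mulVec (σ.P B t i (n + n2) u))) h0

theorem sela_mulVec {m B : ℕ} {t : ℝ} {ι : Type} (σ : Sys m ι) {k : ℕ}
    (hP : ∀ (i n1 n2 : ℕ) (u : Fin n1 → ι) (v : Fin n2 → ι) (c : Fin m),
      σ.P B t i (n1 + n2) (Fin.append u v) c = (B : ℝ) ^ n2 * σ.P B t i n1 u c + σ.P B t (i + n1) n2 v c)
    (π : Matrix (Fin k) (Fin m) ℝ) (i n n2 : ℕ) (u : Fin n → ι) (v : Fin n2 → ι) :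
    π.mulVec (σ.P B t i (n + n2) (Fin.append u v)) =
      (B : ℝ) ^ n2 • π.mulVec (σ.P B t i n u) + π.mulVec (σ.P B t (i + n) n2 v) := by
  have : σ.P B t i (n + n2) (Fin.append u v) = (B : ℝ) ^ n2 • σ.P B t i n u + σ.P B t (i + n) n2 v := by
    funext c
    rw [hP]
    simp
  rw [this, Matrix.mulVec_add, Matrix.mulVec_smul]

theorem sela_W_le (hE1 : ST_E1) (hE2 : ST_E2) (hE5 : ST_E5) {m B : ℕ} {t : ℝ} {ι : Type} [Fintype ι]
    (σ : Sys m ι) {k : ℕ}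
    (hP : ∀ (i n1 n2 : ℕ) (u : Fin n1 → ι) (v : Fin n2 → ι) (c : Fin m),
      σ.P B t i (n1 + n2) (Fin.append u v) c = (B : ℝ) ^ n2 * σ.P B t i n1 u c + σ.P B t (i + n1) n2 v c)
    (π : Matrix (Fin k) (Fin m) ℝ) (i n n2 : ℕ) :
    ent ((univ : Finset (Fin n → ι)) ×ˢ (univ : Finset (Fin n2 → ι)))
      (fun x => fl ((B : ℝ) ^ n2 • π.mulVec (σ.P B t i n x.1)) + fl (π.mulVec (σ.P B t (i + n) n2 x.2))) ≤
      σ.hh B t π i (n + n2) + k * Real.log 2 := by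
  classical
  rw [← sela_hh_prod hE5 σ π i n n2]
  set S := (univ : Finset (Fin n → ι)) ×ˢ (univ : Finset (Fin n2 → ι)) with hS
  set W : (Fin n → ι) × (Fin n2 → ι) → Fin k → ℤ := fun x =>
    fl ((B : ℝ) ^ n2 • π.mulVec (σ.P B t i n x.1)) + fl (π.mulVec (σ.P B t (i + n) n2 x.2)) with hW
  set Z : (Fin n → ι) × (Fin n2 → ι) → Fin k → ℤ := fun x =>
    fl (π.mulVec (σ.P B t i (n + n2) (Fin.append x.1 x.2))) with hZ
  have h1 := hE2.1 _ _ _ S W Z (2 ^ k) (fun c => ⟨Fintype.piFinset fun j => {c j - 1, c j}, ?_, ?_⟩)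
  · have h2 : ent S W ≤ ent S (fun ω => (W ω, Z ω)) := by
      refine sela_dp hE1 S _ _ fun x _ y _ hxy => ?_
      simp only [Prod.mk.injEq] at hxy
      exact hxy.1
    have h3 : Real.log ((2 ^ k : ℕ) : ℝ) = k * Real.log 2 := by
      push_cast
      rw [Real.log_pow]
    rw [h3] at h1
    unfold cent at h1
    linarith
  · rw [Fintype.card_piFinset]
    calc ∏ j, ({c j - 1, c j} : Finset ℤ).card ≤ ∏ _j : Fin k, 2 :=
          Finset.prod_le_prod' fun j _ => Finset.card_le_two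
      _ = 2 ^ k := by simp
  · intro x _ hx
    simp only [Fintype.mem_piFinset, Finset.mem_insert, Finset.mem_singleton]
    intro j
    rw [← hx]
    have h4 : Z x j = ⌊(B : ℝ) ^ n2 * π.mulVec (σ.P B t i n x.1) j + π.mulVec (σ.P B t (i + n) n2 x.2) j⌋ := by
      rw [hZ]
      simp only [fl]
      rw [sela_mulVec σ hP]
      simp
    have h5 : W x j = ⌊(B : ℝ) ^ n2 * π.mulVec (σ.P B t i n x.1) j⌋ + ⌊π.mulVec (σ.P B t (i + n) n2 x.2) j⌋ := by
      rw [hW]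
      simp [fl]
    have h6 := Int.le_floor_add ((B : ℝ) ^ n2 * π.mulVec (σ.P B t i n x.1) j)
      (π.mulVec (σ.P B t (i + n) n2 x.2) j)
    have h7 := Int.le_floor_add_floor ((B : ℝ) ^ n2 * π.mulVec (σ.P B t i n x.1) j)
      (π.mulVec (σ.P B t (i + n) n2 x.2) j)
    rw [← h4, ← h5] at h6 h7
    omega

/-- the coarse half given the sum -/
theorem sela_W_cent (hE1 : ST_E1) (hE2 : ST_E2) (hE5 : ST_E5) (hFRM : ST_FRM) {m B : ℕ} {R t : ℝ} {ι : Type}
    [Fintype ι] [Nonempty ι] (σ : Sys m ι) {k : ℕ} (hB : 2 ≤ B)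
    (hP : ∀ (i n1 n2 : ℕ) (u : Fin n1 → ι) (v : Fin n2 → ι) (c : Fin m),
      σ.P B t i (n1 + n2) (Fin.append u v) c = (B : ℝ) ^ n2 * σ.P B t i n1 u c + σ.P B t (i + n1) n2 v c)
    (hPb : ∀ (i n : ℕ) (u : Fin n → ι) (c : Fin m), |σ.P B t i n u c| ≤ (R + B) * (B : ℝ) ^ n)
    (π : Matrix (Fin k) (Fin m) ℝ) (hπ : Frame π) (i n n2 : ℕ) :
    cent ((univ : Finset (Fin n → ι)) ×ˢ (univ : Finset (Fin n2 → ι)))
      (fun x => fl ((B : ℝ) ^ n2 • π.mulVec (σ.P B t i n x.1)) + fl (π.mulVec (σ.P B t (i + n) n2 x.2)))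
      (fun x => cl B n2 (fl ((B : ℝ) ^ n2 • π.mulVec (σ.P B t i n x.1)))) ≤
      σ.hh B t π i (n + n2) - σ.hh B t π i n + k * Real.log 2 +
        k * Real.log (2 * (⌈m * (R + B)⌉₊ + 1 : ℕ) + 1 : ℕ) := by
  classical
  have hW0 := sela_W_le hE1 hE2 hE5 σ hP π i n n2
  set S := (univ : Finset (Fin n → ι)) ×ˢ (univ : Finset (Fin n2 → ι)) with hS
  set W : (Fin n → ι) × (Fin n2 → ι) → Fin k → ℤ := fun x =>
    fl ((B : ℝ) ^ n2 • π.mulVec (σ.P B t i n x.1)) + fl (π.mulVec (σ.P B t (i + n) n2 x.2)) with hW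
  set G : (Fin n → ι) × (Fin n2 → ι) → Fin k → ℤ := fun x =>
    cl B n2 (fl ((B : ℝ) ^ n2 • π.mulVec (σ.P B t i n x.1))) with hG
  set D : ℕ := ⌈m * (R + B)⌉₊ + 1 with hD
  have hb : (0 : ℤ) < (B : ℤ) ^ n2 := by positivity
  have h1 := hE2.1 _ _ _ S G W ((2 * D + 1) ^ k) (fun c => ⟨Fintype.piFinset fun j =>
    Finset.Icc (c j / (B : ℤ) ^ n2 - D) (c j / (B : ℤ) ^ n2 + D), ?_, ?_⟩)
  · have h2 : ent S (fun ω => (G ω, W ω)) = ent S (fun ω => (W ω, G ω)) := by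
      refine sela_eq hE1 S _ _ fun x _ y _ => ?_
      simp only [Prod.mk.injEq]
      tauto
    have h3 : Real.log (((2 * D + 1) ^ k : ℕ) : ℝ) = k * Real.log (2 * D + 1 : ℕ) := by
      rw [Nat.cast_pow, Real.log_pow]
    have h4 : ent S G = σ.hh B t π i n := by
      have h5 := hE5.1 (Fin n → ι) (Fin n2 → ι) (Fin k → ℤ) univ univ
        (fun u => cl B n2 (fl ((B : ℝ) ^ n2 • π.mulVec (σ.P B t i n u)))) Finset.univ_nonempty
      rw [← hS] at h5
      simp only [sela_cl_fl B n2 hB] at h5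
      rw [hG]
      simp only [sela_cl_fl B n2 hB]
      rw [h5]
      rfl
    rw [h3] at h1
    unfold cent at h1 ⊢
    rw [h4, ← h2]
    linarith
  · rw [Fintype.card_piFinset]
    have h6 : ∀ j : Fin k, (Finset.Icc (c j / (B : ℤ) ^ n2 - D) (c j / (B : ℤ) ^ n2 + D)).card = 2 * D + 1 := by
      intro j
      rw [Int.card_Icc]
      have : c j / (B : ℤ) ^ n2 + D + 1 - (c j / (B : ℤ) ^ n2 - D) = ((2 * D + 1 : ℕ) : ℤ) := by
        push_cast
        ring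
      rw [this, Int.toNat_natCast]
    rw [Finset.prod_congr rfl fun j _ => h6 j]
    simp
  · intro x _ hx
    simp only [Fintype.mem_piFinset, Finset.mem_Icc]
    intro j
    have h7 : |π.mulVec (σ.P B t (i + n) n2 x.2) j| ≤ m * ((R + B) * (B : ℝ) ^ n2) :=
      hFRM.2.2.1 k m π hπ _ _ (hPb (i + n) n2 x.2) j
    have h8 : |⌊π.mulVec (σ.P B t (i + n) n2 x.2) j⌋| ≤ (D : ℤ) * (B : ℤ) ^ n2 := by
      have h9 : (1 : ℝ) ≤ (B : ℝ) ^ n2 := one_le_pow₀ (by exact_mod_cast (by omega : 1 ≤ B))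
      have h10 : (m * (R + B) : ℝ) ≤ (D : ℝ) - 1 := by
        rw [hD]
        push_cast
        have := Nat.le_ceil (m * (R + B) : ℝ)
        linarith
      have h11 : (m : ℝ) * ((R + B) * (B : ℝ) ^ n2) + 1 ≤ (D : ℝ) * (B : ℝ) ^ n2 := by
        have : (m * (R + B) : ℝ) * (B : ℝ) ^ n2 ≤ ((D : ℝ) - 1) * (B : ℝ) ^ n2 :=
          mul_le_mul_of_nonneg_right h10 (by positivity)
        nlinarith
      have h12 := Int.floor_le (π.mulVec (σ.P B t (i + n) n2 x.2) j)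
      have h13 := Int.lt_floor_add_one (π.mulVec (σ.P B t (i + n) n2 x.2) j)
      have h14 := abs_le.mp h7
      have h15 : |((⌊π.mulVec (σ.P B t (i + n) n2 x.2) j⌋ : ℤ) : ℝ)| ≤ (D : ℝ) * (B : ℝ) ^ n2 := by
        rw [abs_le]
        constructor <;> linarith
      exact_mod_cast h15
    have h16 := sela_cl_add_sub B D n2 hB c j (-⌊π.mulVec (σ.P B t (i + n) n2 x.2) j⌋) (by rw [abs_neg]; exact h8)
    have h17 : c j + -⌊π.mulVec (σ.P B t (i + n) n2 x.2) j⌋ =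
        fl ((B : ℝ) ^ n2 • π.mulVec (σ.P B t i n x.1)) j := by
      rw [← hx, hW]
      simp [fl]
    rw [h17] at h16
    exact h16

/-! ### the main statement -/

theorem sela_super (g : ℕ → ℕ → ℝ) (x : ℝ) (h : ∀ i n1 n2, g i n1 + g (i + n1) n2 - x ≤ g i (n1 + n2))
    (i n r : ℕ) : ∑ j ∈ range (r + 1), g (i + j * n) n - r * x ≤ g i ((r + 1) * n) := by
  induction r with
  | zero => simp
  | succ r ih =>
    rw [Finset.sum_range_succ]
    have h1 := h i ((r + 1) * n) n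
    have h2 : (r + 1) * n + n = (r + 1 + 1) * n := by ring
    rw [h2] at h1
    push_cast at h1 ⊢
    linarith

theorem sela_ee {m B : ℕ} {R t : ℝ} {ι : Type} [Fintype ι] (σ : Sys m ι) (hB : 2 ≤ B) (k a q : ℕ) :
    σ.GG B t k (q * 2 ^ a) (2 ^ a) = σ.ee B R t k a q * (2 ^ a * Real.log B) + cc m B R := by
  have hL : 0 < Real.log B := Real.log_pos (by exact_mod_cast hB)
  unfold Sys.ee
  field_simp
  ring

theorem st_SELA (hE1 : ST_E1) (hE2 : ST_E2) (_hE3 : ST_E3) (hE5 : ST_E5) (hFRM : ST_FRM) (hPB : ST_PB)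
    (hSUP : ST_SUP) (hINC : ST_INC) (hPIG : ST_PIG) : ST_SELA := by
  intro m B μ k R ε0 ε1 hm hB hR hε0 hμ hk hε1
  have hL : 0 < Real.log B := Real.log_pos (by exact_mod_cast hB)
  have hM2 : 2 ≤ 2 ^ μ := by
    calc 2 = 2 ^ 1 := by norm_num
      _ ≤ 2 ^ μ := Nat.pow_le_pow_right (by norm_num) hμ
  have hcc : 0 ≤ cc m B R := by
    unfold cc
    refine mul_nonneg (Nat.cast_nonneg _) (Real.log_nonneg ?_)
    have : (0 : ℝ) ≤ 4 * m * (R + B) := by positivity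
    linarith
  obtain ⟨θ, ε, κ, hθ, hε, hε8, hMε, hκ, hS⟩ :=
    sela_scales hE1 hE2 hE5 hPIG (2 ^ μ) (k + 1) B ε1 hM2 hB (by omega) hε1
  obtain ⟨Ci, hCi, hI⟩ := hINC m B R hm hB hR
  set K1 : ℝ := ((k + 1 : ℕ) : ℝ) * Real.log (2 * (⌈m * (R + B)⌉₊ + 1 : ℕ) + 1 : ℕ) with hK1
  have hK1' : 0 ≤ K1 := mul_nonneg (Nat.cast_nonneg _) (Real.log_natCast_nonneg _)
  have hK2 : 0 ≤ ((k + 1 : ℕ) : ℝ) * Real.log 2 := mul_nonneg (Nat.cast_nonneg _) (Real.log_nonneg (by norm_num))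
  set C : ℝ := cc m B R + 1 + ((k + 1 : ℕ) : ℝ) * Real.log 2 + K1 + Ci with hC
  have hC0 : 0 ≤ C := by linarith
  obtain ⟨lam0, hlam0, hS⟩ := hS C hC0
  refine ⟨θ, ε, κ, hθ, hε, hε8, hκ, fun v => ⟨max v lam0, le_max_left _ _, fun a ha η' hη' => ?_⟩⟩
  have hva : v ≤ a := le_trans (le_max_left _ _) ha
  have hla : lam0 ≤ 2 ^ a := le_trans (le_trans (le_max_right _ _) ha) (Nat.lt_two_pow_self).le
  obtain ⟨η, hη, N0, hS⟩ := hS (2 ^ a) hla η' hη'
  refine ⟨η, hη, a + N0, by omega, fun c hc => ?_⟩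
  intro ι _ _ σ t q0 hσ ht0 ht1 hadd hloc hbad hgood hbad' hsmall
  have hN0 : N0 ≤ 2 ^ (c - a) := le_trans (by omega) (Nat.lt_two_pow_self).le
  obtain ⟨hP1, hP2, _, _, _⟩ := hPB m B R t ι σ hB hR ht0 ht1 hσ
  obtain ⟨s1, s2, s3, s4, s5, s6⟩ := hSUP m B R t ι σ (k + 1) hm hB hR ht0 ht1 hσ hk
  -- notation
  have hn : 2 ^ c = 2 ^ (c - a) * 2 ^ a := by rw [← pow_add]; congr 1; omega
  have hMn : 2 ^ (c + μ) = 2 ^ c + (2 ^ μ - 1) * 2 ^ c := by
    have : 2 ^ (c + μ) = 2 ^ μ * 2 ^ c := by rw [pow_add]; ring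
    rw [this]
    obtain ⟨M, hM⟩ := Nat.exists_eq_add_of_le hM2
    rw [hM]
    have : 2 + M - 1 = M + 1 := by omega
    rw [this]
    ring
  obtain ⟨π, hπ, hmin⟩ := s6 (q0 * 2 ^ (c + μ)) (2 ^ (c + μ))
  set i := q0 * 2 ^ (c + μ) with hi
  set n2 := (2 ^ μ - 1) * 2 ^ c with hn2
  set e := σ.ee B R t (k + 1) (c + μ) q0 with he
  set y : ℕ → ℝ := fun j => σ.ee B R t (k + 1) c (q0 * 2 ^ μ + j) with hy
  set X : ℝ := 2 ^ c * Real.log B with hX
  have hX0 : 0 < X := by positivity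
  have hMr : (2 : ℝ) ≤ 2 ^ μ := by exact_mod_cast hM2
  -- the values of `GG`
  have g0 : σ.GG B t (k + 1) i (2 ^ (c + μ)) = e * (2 ^ μ * X) + cc m B R := by
    rw [hi, sela_ee (R := R) σ hB, hX]
    ring
  have gj : ∀ j, σ.GG B t (k + 1) (i + j * 2 ^ c) (2 ^ c) = y j * X + cc m B R := by
    intro j
    have : i + j * 2 ^ c = (q0 * 2 ^ μ + j) * 2 ^ c := by
      rw [hi, pow_add]
      ring
    rw [this, sela_ee (R := R) σ hB]
  -- superadditivity
  obtain ⟨M, hM⟩ := Nat.exists_eq_add_of_le hM2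
  have hMr' : (2 : ℝ) ^ μ = 2 + M := by exact_mod_cast hM
  have g2 : ∑ j ∈ range (M + 1), y (j + 1) * X + cc m B R ≤ σ.GG B t (k + 1) (i + 2 ^ c) n2 := by
    have h1 := sela_super (fun i n => σ.GG B t (k + 1) i n) (cc m B R) s3 (i + 2 ^ c) (2 ^ c) M
    have h2 : (M + 1) * 2 ^ c = n2 := by
      rw [hn2, hM]
      congr 1
      omega
    rw [h2] at h1
    have h3 : ∑ j ∈ range (M + 1), σ.GG B t (k + 1) (i + 2 ^ c + j * 2 ^ c) (2 ^ c) =
        ∑ j ∈ range (M + 1), (y (j + 1) * X + cc m B R) := by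
      refine Finset.sum_congr rfl fun j _ => ?_
      rw [← gj (j + 1)]
      congr 1
      ring
    simp only [h3, Finset.sum_add_distrib, Finset.sum_const, Finset.card_range, nsmul_eq_mul] at h1
    push_cast at h1
    linarith
  have hsum : ∑ j ∈ range (2 ^ μ), y j = ∑ j ∈ range (M + 1), y (j + 1) + y 0 := by
    rw [hM, show 2 + M = (M + 1) + 1 by ring, Finset.sum_range_succ']
  have hy0 : e - ε ≤ y 0 := by
    have := abs_le.mp (hloc 0 (by positivity))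
    simp only [hy]
    linarith [this.1]
  have hys : (M + 1 : ℝ) * (e - ε) ≤ ∑ j ∈ range (M + 1), y (j + 1) := by
    have : ∑ _j ∈ range (M + 1), (e - ε) ≤ ∑ j ∈ range (M + 1), y (j + 1) := by
      refine Finset.sum_le_sum fun j hj => ?_
      rw [Finset.mem_range] at hj
      have := abs_le.mp (hloc (j + 1) (by omega))
      simp only [hy]
      linarith [this.1]
    rw [Finset.sum_const, Finset.card_range, nsmul_eq_mul] at this
    push_cast at this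
    exact this
  have hadd' : e * (2 + M) - (∑ j ∈ range (M + 1), y (j + 1) + y 0) ≤ η * (2 + M) := by
    have h1 : (∑ j ∈ range (2 ^ μ), y j) / 2 ^ μ * (2 + M) = ∑ j ∈ range (M + 1), y (j + 1) + y 0 := by
      rw [hsum, hMr']
      field_simp
    have h2 : (e - (∑ j ∈ range (2 ^ μ), y j) / 2 ^ μ) * (2 + M) ≤ η * (2 + M) :=
      mul_le_mul_of_nonneg_right hadd (by positivity)
    rw [sub_mul, h1] at h2
    exact h2
  rw [← Finset.sum_mul] at g2
  set Y := ∑ j ∈ range (M + 1), y (j + 1) with hY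
  -- entropies of the frame
  have k0 : σ.hh B t π i (2 ^ c + n2) ≤ e * ((2 + M) * X) + cc m B R + 1 := by
    rw [← hMn]
    rw [g0, hMr'] at hmin
    exact hmin
  have k1 : y 0 * X + cc m B R ≤ σ.hh B t π i (2 ^ c) := by
    have h1 := s5 π i (2 ^ c) hπ
    have h2 := gj 0
    rw [zero_mul, add_zero] at h2
    linarith
  have k2 : Y * X + cc m B R ≤ σ.hh B t π (i + 2 ^ c) n2 := le_trans g2 (s5 π (i + 2 ^ c) n2 hπ)
  have k3 := s1 π i (2 ^ c) n2 hπ
  have hZ0 : (e - ε) * X ≤ y 0 * X := mul_le_mul_of_nonneg_right hy0 hX0.le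
  have hZ1 : (M + 1 : ℝ) * (e - ε) * X ≤ Y * X := mul_le_mul_of_nonneg_right hys hX0.le
  have hZ2 : (e * (2 + M) - (Y + y 0)) * X ≤ η * (2 + M) * X := mul_le_mul_of_nonneg_right hadd' hX0.le
  have hZ3 : ((2 + M : ℝ) * ε) * X ≤ ε1 / 4 * X := by
    refine mul_le_mul_of_nonneg_right ?_ hX0.le
    have : ((2 ^ μ : ℕ) : ℝ) = 2 + M := by push_cast; exact hMr'
    rw [this] at hMε
    exact hMε
  have hZ4 : e * X ≤ (k + 1 - ε0 - ε1) * X := mul_le_mul_of_nonneg_right hsmall.le hX0.le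
  have hZ5 : 0 ≤ ε * X := (mul_pos hε hX0).le
  have hZ6 : 0 ≤ ε1 * X := (mul_pos hε1 hX0).le
  have hNl : ((2 ^ (c - a) : ℕ) : ℝ) * ((2 ^ a : ℕ) : ℝ) * Real.log B = X := by
    rw [hX, ← Nat.cast_mul, ← hn]
    push_cast
    ring
  have hent0 := s2 π i (2 ^ c) hπ
  -- the good window
  have hT : (k + 1 - ε0) * X ≤ ent (univ : Finset (Fin (2 ^ c) → ι))
      (fun u => fl ((B : ℝ) ^ n2 • π.mulVec (σ.P B t i (2 ^ c) u))) := by
    have h1 := hgood (k + 1) hk π hπ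
    have h2 : (((k + 1 : ℕ) : ℝ) - ε0) * ((2 ^ c : ℕ) : ℝ) * Real.log B = (k + 1 - ε0) * X := by
      rw [hX]
      push_cast
      ring
    rw [h2] at h1
    exact h1
  have hclT : ent (univ : Finset (Fin (2 ^ c) → ι))
      (fun u => cl B n2 (fl ((B : ℝ) ^ n2 • π.mulVec (σ.P B t i (2 ^ c) u)))) = σ.hh B t π i (2 ^ c) := by
    simp only [sela_cl_fl B n2 hB]
    rfl
  have hcent := sela_W_cent hE1 hE2 hE5 hFRM σ hB hP1 hP2 π hπ i (2 ^ c) n2
  rw [← hK1] at hcent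
  set N := 2 ^ (c - a) with hN
  have hMN : 2 ^ (c + μ - a) = 2 ^ μ * N := by
    rw [hN, ← pow_add]
    congr 1
    omega
  have hn2' : n2 = (2 ^ μ - 1) * N * 2 ^ a := by rw [hn2, hn, ← mul_assoc]
  have hnode : ∀ j, i + 2 ^ c + j * 2 ^ a = (q0 * 2 ^ (c + μ - a) + (N + j)) * 2 ^ a := by
    intro j
    have h1 : 2 ^ (c + μ) = 2 ^ (c + μ - a) * 2 ^ a := by rw [← pow_add]; congr 1; omega
    rw [hi, h1, hn]
    ring
  have hlev : ∀ j < (2 ^ μ - 1) * N, n2 - (j + 1) * 2 ^ a + 2 ^ a = n2 - j * 2 ^ a ∧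
      n2 - (j + 1) * 2 ^ a + 2 ^ a ≤ n2 ∧ n2 - (n2 - j * 2 ^ a) = j * 2 ^ a := by
    intro j hj
    have h1 : (j + 1) * 2 ^ a ≤ (2 ^ μ - 1) * N * 2 ^ a := Nat.mul_le_mul_right _ hj
    rw [← hn2'] at h1
    have h2 : (j + 1) * 2 ^ a = j * 2 ^ a + 2 ^ a := by ring
    refine ⟨by omega, by omega, by omega⟩
  have hcard : ∀ (P : ℕ → Prop) [DecidablePred P],
      (((range ((2 ^ μ - 1) * N)).filter (fun j => P (N + j))).card : ℝ) ≤
        (((range (2 ^ (c + μ - a))).filter P).card : ℝ) := by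
    intro P _
    have : ((range ((2 ^ μ - 1) * N)).filter (fun j => P (N + j))).card ≤
        ((range (2 ^ (c + μ - a))).filter P).card := by
      refine Finset.card_le_card_of_injOn (fun j => N + j) ?_ ?_
      · intro j hj
        rw [Finset.mem_coe, Finset.mem_filter, Finset.mem_range] at hj ⊢
        refine ⟨?_, hj.2⟩
        have h1 : N + (2 ^ μ - 1) * N = 2 ^ μ * N := by
          rw [hM, show 2 + M - 1 = M + 1 by omega]
          ring
        rw [hMN, ← h1]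
        exact Nat.add_lt_add_left hj.1 N
      · intro x _ y _ hxy
        simpa using hxy
    exact_mod_cast this
  have hMNr : κ * (((2 ^ μ : ℕ) : ℝ) * (N : ℝ)) = κ * 2 ^ (c + μ - a) := by
    have : ((2 ^ (c + μ - a) : ℕ) : ℝ) = ((2 ^ μ : ℕ) : ℝ) * (N : ℝ) := by
      rw [hMN]
      push_cast
      ring
    rw [← this]
    push_cast
    ring
  have hek : e ≤ ((k + 1 : ℕ) : ℝ) := by
    push_cast
    linarith
  obtain ⟨j, s, hj3, hjM, hs1, hs2, hs3, hs4, hs5, hs6⟩ := hS N hN0 (Fin (2 ^ c) → ι) (Fin n2 → ι) univ univ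
    (fun u => fl ((B : ℝ) ^ n2 • π.mulVec (σ.P B t i (2 ^ c) u)))
    (fun v => fl (π.mulVec (σ.P B t (i + 2 ^ c) n2 v))) e
    ((range ((2 ^ μ - 1) * N)).filter (fun j => σ.ee B R t (k + 1) a (q0 * 2 ^ (c + μ - a) + (N + j)) < e - ε))
    ((range ((2 ^ μ - 1) * N)).filter (fun j => σ.ee B R t k a (q0 * 2 ^ (c + μ - a) + (N + j)) < k - ε0 - ε))
    (2 ^ v) (2 ^ (a - v)) n2 Finset.univ_nonempty Finset.univ_nonempty
    (by rw [← pow_add]; congr 1; omega) (Nat.one_le_two_pow) hn2' hek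
    (by
      rw [hNl, hclT]
      linarith)
    (by
      rw [hNl]
      have h1 : ent (univ : Finset (Fin n2 → ι)) (fun v => fl (π.mulVec (σ.P B t (i + 2 ^ c) n2 v))) =
        σ.hh B t π (i + 2 ^ c) n2 := rfl
      rw [h1]
      have h2 : ((2 ^ μ : ℕ) : ℝ) = 2 + M := by push_cast; exact hMr'
      rw [h2]
      linarith)
    (by
      rw [hNl]
      have h1 : ent (univ : Finset (Fin n2 → ι)) (fun v => fl (π.mulVec (σ.P B t (i + 2 ^ c) n2 v))) =
        σ.hh B t π (i + 2 ^ c) n2 := rfl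
      rw [h1]
      have h2 : ((2 ^ μ : ℕ) : ℝ) = 2 + M := by push_cast; exact hMr'
      rw [h2]
      linarith)
    (by
      intro j hj hjb
      have hjb' : e - ε ≤ σ.ee B R t (k + 1) a (q0 * 2 ^ (c + μ - a) + (N + j)) := by
        by_contra hcon
        exact hjb (Finset.mem_filter.mpr ⟨Finset.mem_range.mpr hj, not_le.mp hcon⟩)
      obtain ⟨q1, q2, q3⟩ := hlev j hj
      have h1 := hI ι σ t (k + 1) π (i + 2 ^ c) n2 (n2 - (j + 1) * 2 ^ a) (2 ^ a) ht0 ht1 hσ hπ q2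
      rw [q1, q3] at h1
      have h2 := s5 π (i + 2 ^ c + j * 2 ^ a) (2 ^ a) hπ
      have h3 : σ.GG B t (k + 1) (i + 2 ^ c + j * 2 ^ a) (2 ^ a) =
          σ.ee B R t (k + 1) a (q0 * 2 ^ (c + μ - a) + (N + j)) * (2 ^ a * Real.log B) + cc m B R := by
        rw [hnode j, sela_ee (R := R) σ hB]
      have h4 : (e - ε) * (2 ^ a * Real.log B) ≤
          σ.ee B R t (k + 1) a (q0 * 2 ^ (c + μ - a) + (N + j)) * (2 ^ a * Real.log B) :=
        mul_le_mul_of_nonneg_right hjb' (by positivity)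
      have h5 : (e - ε) * ((2 ^ a : ℕ) : ℝ) * Real.log B = (e - ε) * (2 ^ a * Real.log B) := by
        push_cast
        ring
      rw [h5]
      linarith)
    (by
      rw [hMNr]
      exact le_trans (hcard (fun j => σ.ee B R t (k + 1) a (q0 * 2 ^ (c + μ - a) + j) < e - ε)) hbad)
    (by
      rw [hMNr]
      exact le_trans (hcard (fun j => σ.ee B R t k a (q0 * 2 ^ (c + μ - a) + j) < k - ε0 - ε)) hbad')
  obtain ⟨q1, q2, q3⟩ := hlev (j - 3) (by omega)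
  have r1 : (j - 3 + 1) * 2 ^ a = (j - 2) * 2 ^ a := by
    congr 1
    omega
  have r2 : (j - 2) * 2 ^ a + 2 * 2 ^ a = j * 2 ^ a := by
    rw [← add_mul]
    congr 1
    omega
  have r3 : (j - 2) * 2 ^ a + 3 * 2 ^ a = (j + 1) * 2 ^ a := by
    rw [← add_mul]
    congr 1
    omega
  have r4 : (j + 1) * 2 ^ a ≤ n2 := by
    rw [hn2']
    exact Nat.mul_le_mul_right _ hjM
  rw [r1] at q1 q2
  have hva' : (2 : ℕ) ^ v ≥ 1 := Nat.one_le_two_pow
  refine ⟨π, s, n2 - (j - 2) * 2 ^ a, hπ, q2, by omega, by omega, ?_, hs4, ?_, ?_⟩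
  · have h1 : θ * ((2 ^ v : ℕ) : ℝ) * Real.log B = θ * 2 ^ v * Real.log B := by
      push_cast
      ring
    rw [h1] at hs3
    exact hs3
  · rw [q1]
    refine le_trans hs6 ?_
    have h1 : (e + ε1 / 8) * ((2 ^ a : ℕ) : ℝ) * Real.log B = (e + ε1 / 8) * (2 ^ a * Real.log B) := by
      push_cast
      ring
    have h2 : (k + 1 - ε0 - 7 / 8 * ε1) * 2 ^ a * Real.log B = (k + 1 - ε0 - 7 / 8 * ε1) * (2 ^ a * Real.log B) := by
      ring
    rw [h1, h2]
    exact mul_le_mul_of_nonneg_right (by linarith) (by positivity)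
  · rw [q1, q3, hnode, sela_ee (R := R) σ hB]
    have h1 : k - ε0 - ε ≤ σ.ee B R t k a (q0 * 2 ^ (c + μ - a) + (N + (j - 3))) := by
      by_contra hcon
      exact hs5 (Finset.mem_filter.mpr ⟨Finset.mem_range.mpr (by omega), not_le.mp hcon⟩)
    have h2 : (k - ε0 - ε) * 2 ^ a * Real.log B = (k - ε0 - ε) * (2 ^ a * Real.log B) := by
      ring
    rw [h2]
    have h3 := mul_le_mul_of_nonneg_right h1 (show (0 : ℝ) ≤ 2 ^ a * Real.log B by positivity)
    linarith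

end Pool.Agent.Helper70.DK
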